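import Mathlib

set_option autoImplicit false

/-!
# Vertex isoperimetry for independent sets of the discrete cube

The vertices of the cube are indexed by lists (the entries are not used here). For an independent
set with densities `a`, `b` in the two colour classes of the cube of dimension `n ≥ 1` we have
`a + b + w a (1 - a) ≤ 1` with `w = √(6 / (n + 5))`.
-/

namespace Pool.Agent.J4.H81.SR

open Finset

/-- the vertices of the cube whose dimension is the length of the list -/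
def Q : List ℕ → Type
  | [] => Unit
  | _ :: l => Q l × Bool

noncomputable instance instQ : (l : List ℕ) → Fintype (Q l)
  | [] => inferInstanceAs (Fintype Unit)
  | _ :: l => haveI := instQ l; inferInstanceAs (Fintype (Q l × Bool))

/-- `adj p q`: the vertex `q` arises from `p` by changing one coordinate from `false` to `true` -/
def adj : (l : List ℕ) → Q l → Q l → Prop
  | [], _, _ => False
  | _ :: l, p, q => (p.2 = q.2 ∧ adj l p.1 q.1) ∨ (p.1 = q.1 ∧ p.2 = false ∧ q.2 = true)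

/-- the signs, divided by the number of vertices -/
noncomputable def sg : (l : List ℕ) → Q l → ℝ
  | [], _ => 1
  | _ :: l, p => sg l p.1 * (if p.2 = true then -1 / 2 else 1 / 2)

/-- the uniform weight -/
noncomputable def tw : List ℕ → ℝ
  | [] => 1
  | _ :: l => tw l / 2

/-- the average of `u` -/
noncomputable def tot (l : List ℕ) (u : Q l → ℝ) : ℝ := ∑ q, tw l * u q

/-- the average of `u` with signs -/
noncomputable def mm (l : List ℕ) (u : Q l → ℝ) : ℝ := ∑ q, sg l q * u q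

lemma sum_cons (x : ℕ) (l : List ℕ) (F : Q (x :: l) → ℝ) :
    ∑ q, F q = ∑ q : Q l, F (q, false) + ∑ q : Q l, F (q, true) := by
  have h : ∑ q, F q = ∑ q : Q l, ∑ b : Bool, F (q, b) :=
    Fintype.sum_prod_type (fun q : Q l × Bool => F q)
  rw [h, ← sum_add_distrib]
  refine sum_congr rfl fun q _ => ?_
  rw [Fintype.sum_bool, add_comm]

lemma tot_cons (x : ℕ) (l : List ℕ) (u : Q (x :: l) → ℝ) :
    tot (x :: l) u = (tot l (fun q => u (q, false)) + tot l (fun q => u (q, true))) / 2 := by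
  unfold tot
  rw [sum_cons, add_div, sum_div, sum_div]
  congr 1 <;>
  · refine sum_congr rfl fun q _ => ?_
    simp only [tw]
    ring

lemma mm_cons (x : ℕ) (l : List ℕ) (u : Q (x :: l) → ℝ) :
    mm (x :: l) u = (mm l (fun q => u (q, false)) - mm l (fun q => u (q, true))) / 2 := by
  unfold mm
  rw [sum_cons, sub_div, sum_div, sum_div, sub_eq_add_neg, ← sum_neg_distrib]
  congr 1 <;>
  · refine sum_congr rfl fun q _ => ?_
    simp only [sg]
    norm_num
    ring

lemma tot_nil (u : Q [] → ℝ) : tot [] u = u () := by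
  have h : tot [] u = (1 : ℝ) * u () := Fintype.sum_unique (fun q : Unit => (1 : ℝ) * u q)
  rw [h, one_mul]

lemma mm_nil (u : Q [] → ℝ) : mm [] u = u () := by
  have h : mm [] u = (1 : ℝ) * u () := Fintype.sum_unique (fun q : Unit => (1 : ℝ) * u q)
  rw [h, one_mul]

/-- density in the even class -/
noncomputable def ea (l : List ℕ) (u : Q l → ℝ) : ℝ := tot l u + mm l u

/-- density in the odd class -/
noncomputable def ob (l : List ℕ) (u : Q l → ℝ) : ℝ := tot l u - mm l u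

lemma ea_cons (x : ℕ) (l : List ℕ) (u : Q (x :: l) → ℝ) :
    ea (x :: l) u = (ea l (fun q => u (q, false)) + ob l (fun q => u (q, true))) / 2 := by
  unfold ea ob
  rw [tot_cons, mm_cons]
  ring

lemma ob_cons (x : ℕ) (l : List ℕ) (u : Q (x :: l) → ℝ) :
    ob (x :: l) u = (ob l (fun q => u (q, false)) + ea l (fun q => u (q, true))) / 2 := by
  unfold ea ob
  rw [tot_cons, mm_cons]
  ring

lemma ea_add (l : List ℕ) (u v : Q l → ℝ) : ea l (fun q => u q + v q) = ea l u + ea l v := by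
  unfold ea tot mm
  simp only [mul_add, sum_add_distrib]
  ring

lemma ob_add (l : List ℕ) (u v : Q l → ℝ) : ob l (fun q => u q + v q) = ob l u + ob l v := by
  unfold ob tot mm
  simp only [mul_add, sum_add_distrib]
  ring

lemma ea_one (x : ℕ) (u : Q [x] → ℝ) : ea [x] u = u ((), false) := by
  rw [ea_cons]
  unfold ea ob
  rw [tot_nil, mm_nil, tot_nil, mm_nil]
  ring

lemma ob_one (x : ℕ) (u : Q [x] → ℝ) : ob [x] u = u ((), true) := by
  rw [ob_cons]
  unfold ea ob
  rw [tot_nil, mm_nil, tot_nil, mm_nil]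
  ring

lemma nonneg_le (x : ℕ) (l : List ℕ) : ∀ (u : Q (x :: l) → ℝ), (∀ q, 0 ≤ u q) →
    0 ≤ ea (x :: l) u ∧ 0 ≤ ob (x :: l) u := by
  induction l generalizing x with
  | nil =>
    intro u hu
    rw [ea_one, ob_one]
    exact ⟨hu _, hu _⟩
  | cons y l ih =>
    intro u hu
    rw [ea_cons x (y :: l), ob_cons x (y :: l)]
    have h0 := ih y (fun q => u (q, false)) fun q => hu _
    have h1 := ih y (fun q => u (q, true)) fun q => hu _
    constructor
    · linarith [h0.1, h1.2]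
    · linarith [h0.2, h1.1]

lemma le_one_le (x : ℕ) (l : List ℕ) : ∀ (u : Q (x :: l) → ℝ), (∀ q, u q ≤ 1) →
    ea (x :: l) u ≤ 1 ∧ ob (x :: l) u ≤ 1 := by
  induction l generalizing x with
  | nil =>
    intro u hu
    rw [ea_one, ob_one]
    exact ⟨hu _, hu _⟩
  | cons y l ih =>
    intro u hu
    rw [ea_cons x (y :: l), ob_cons x (y :: l)]
    have h0 := ih y (fun q => u (q, false)) fun q => hu _
    have h1 := ih y (fun q => u (q, true)) fun q => hu _
    constructor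
    · linarith [h0.1, h1.2]
    · linarith [h0.2, h1.1]

/-- an auxiliary inequality -/
lemma aux_quad {θ p : ℝ} (h0 : 0 ≤ θ) (h1 : θ ≤ 1) :
    2 * (1 - p ^ 2) ≤ (1 + θ ^ 2 / 4) * (2 + θ * p - θ ^ 2 * ((1 - p ^ 2) / 4)) := by
  set t := θ ^ 2 / 4 with ht
  have t0 : 0 ≤ t := by positivity
  have t1 : t ≤ 1 / 4 := by rw [ht]; nlinarith
  have e : θ ^ 2 = 4 * t := by rw [ht]; ring
  have key : (1 + t) * (2 + θ * p - θ ^ 2 * ((1 - p ^ 2) / 4)) - 2 * (1 - p ^ 2)
      = (t - t ^ 2) + (1 + t) * (θ * p) + (2 + t + t ^ 2) * p ^ 2 := by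
    rw [e]; ring
  have hA : 0 < 2 + t + t ^ 2 := by positivity
  have hdisc : (1 + t) ^ 2 * (4 * t) ≤ 4 * (2 + t + t ^ 2) * (t - t ^ 2) := by
    have : (1 + t) ^ 2 ≤ (2 + t + t ^ 2) * (1 - t) := by nlinarith
    nlinarith
  have h2 : 0 ≤ (2 + t + t ^ 2)
      * ((t - t ^ 2) + (1 + t) * (θ * p) + (2 + t + t ^ 2) * p ^ 2) := by
    have e2 : (2 + t + t ^ 2) * ((t - t ^ 2) + (1 + t) * (θ * p) + (2 + t + t ^ 2) * p ^ 2)
        = ((2 + t + t ^ 2) * p + (1 + t) * θ / 2) ^ 2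
          + ((2 + t + t ^ 2) * (t - t ^ 2) - (1 + t) ^ 2 * θ ^ 2 / 4) := by ring
    rw [e2, e]
    have : 0 ≤ (2 + t + t ^ 2) * (t - t ^ 2) - (1 + t) ^ 2 * (4 * t) / 4 := by linarith
    positivity
  have h3 := nonneg_of_mul_nonneg_right h2 hA
  linarith

/-- one direction of the inductive inequality -/
lemma step_aux {x y w w' b0 a1 : ℝ} (hx0 : 0 ≤ x) (hxy : x ≤ y) (hy1 : y ≤ 1) (hw' : 0 ≤ w')
    (hww : w' ≤ w) (hw1 : w ≤ 1) (hw : w' * (w ^ 2 * (1 + w ^ 2 / 4)) ≤ 16 * (w - w'))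
    (h1 : b0 ≤ 1 - x - w * (x * (1 - x))) (h2 : b0 ≤ 1 - y)
    (h3 : a1 ≤ 1 - y - w * (y * (1 - y))) :
    (b0 + a1) / 2 ≤ 1 - (x + y) / 2 - w' * ((x + y) / 2 * (1 - (x + y) / 2)) := by
  have hw0 : 0 ≤ w := hw'.trans hww
  set I := x * (1 - x) with hI
  have hI0 : 0 ≤ I := mul_nonneg hx0 (by linarith)
  -- the case of the difference `θ I` with `θ ≤ w`
  have key : ∀ θ : ℝ, 0 ≤ θ → θ ≤ w →
      w' * ((θ * I) ^ 2 / 2) ≤ (w - w') * (2 * I + θ * I * (1 - 2 * x) - (θ * I) ^ 2) := by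
    intro θ h0 hθ
    have hθ1 : θ ≤ 1 := hθ.trans hw1
    have q := aux_quad (θ := θ) (p := 1 - 2 * x) h0 hθ1
    have e1 : (1 - (1 - 2 * x) ^ 2) / 4 = I := by rw [hI]; ring
    have e2 : 2 * (1 - (1 - 2 * x) ^ 2) = 8 * I := by rw [hI]; ring
    rw [e1, e2] at q
    set Z := 2 + θ * (1 - 2 * x) - θ ^ 2 * I with hZ
    have hk : 0 < 1 + θ ^ 2 / 4 := by positivity
    have hZ0 : 0 ≤ Z := by
      have : 0 ≤ (1 + θ ^ 2 / 4) * Z := by linarith
      exact nonneg_of_mul_nonneg_right this hk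
    have hmono : θ ^ 2 * (1 + θ ^ 2 / 4) ≤ w ^ 2 * (1 + w ^ 2 / 4) := by
      have h4 : θ ^ 2 ≤ w ^ 2 := pow_le_pow_left₀ h0 hθ 2
      have h5 : 0 ≤ θ ^ 2 := sq_nonneg _
      nlinarith
    have s1 : w' * (θ ^ 2 * (8 * I)) ≤ w' * (θ ^ 2 * ((1 + θ ^ 2 / 4) * Z)) :=
      mul_le_mul_of_nonneg_left (mul_le_mul_of_nonneg_left q (sq_nonneg _)) hw'
    have s2 : w' * (θ ^ 2 * (1 + θ ^ 2 / 4)) * Z ≤ 16 * (w - w') * Z :=
      mul_le_mul_of_nonneg_right ((mul_le_mul_of_nonneg_left hmono hw').trans hw) hZ0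
    have s3 : w' * (θ ^ 2 * (8 * I)) ≤ 16 * ((w - w') * Z) := by
      have e3 : w' * (θ ^ 2 * ((1 + θ ^ 2 / 4) * Z)) = w' * (θ ^ 2 * (1 + θ ^ 2 / 4)) * Z := by
        ring
      linarith
    have s4 : I * (w' * (θ ^ 2 * I) / 2) ≤ I * ((w - w') * Z) :=
      mul_le_mul_of_nonneg_left (by linarith) hI0
    have e4 : w' * ((θ * I) ^ 2 / 2) = I * (w' * (θ ^ 2 * I) / 2) := by ring
    have e5 : (w - w') * (2 * I + θ * I * (1 - 2 * x) - (θ * I) ^ 2) = I * ((w - w') * Z) := by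
      rw [hZ]; ring
    rw [e4, e5]
    exact s4
  obtain ⟨δ, rfl⟩ : ∃ δ, y = x + δ := ⟨y - x, by ring⟩
  have hδ0 : 0 ≤ δ := by linarith
  have e : (x + (x + δ)) / 2 * (1 - (x + (x + δ)) / 2) = (2 * I + δ * (1 - 2 * x) - δ ^ 2) / 2
      + δ ^ 2 / 4 := by
    rw [hI]; ring
  have eJ : (x + δ) * (1 - (x + δ)) = I + δ * (1 - 2 * x) - δ ^ 2 := by
    rw [hI]; ring
  rw [e]
  rw [eJ] at h3
  rcases le_total δ (w * I) with h | h
  · -- use the first bound
    have s1 : w' * (δ ^ 2 / 2) ≤ (w - w') * (2 * I + δ * (1 - 2 * x) - δ ^ 2) := by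
      rcases eq_or_lt_of_le hI0 with hI' | hI'
      · have hδ : δ = 0 := by
          rw [← hI', mul_zero] at h
          linarith
        rw [hδ, ← hI']
        simp
      · have := key (δ / I) (by positivity) (by rwa [div_le_iff₀ hI'])
        rwa [div_mul_cancel₀ _ hI'.ne'] at this
    nlinarith
  · have k0 := key w hw0 le_rfl
    set D := w * I with hD
    have hD0 : 0 ≤ D := mul_nonneg hw0 hI0
    have s2 : 0 ≤ 1 - w' * ((δ + D) / 2) + (w - w') * (1 - 2 * x - (δ + D)) := by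
      have h5 : δ + D ≤ 2 * (1 - x) := by linarith
      have h6 : w' * ((δ + D) / 2) ≤ w' * (1 - x) :=
        mul_le_mul_of_nonneg_left (by linarith) hw'
      have h7 : w' * (1 - x) ≤ w' * 1 := mul_le_mul_of_nonneg_left (by linarith) hw'
      have h8 : (w - w') * (-1) ≤ (w - w') * (1 - 2 * x - (δ + D)) :=
        mul_le_mul_of_nonneg_left (by linarith) (by linarith)
      linarith
    have s3 : 0 ≤ (δ - D) * (1 - w' * ((δ + D) / 2) + (w - w') * (1 - 2 * x - (δ + D))) :=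
      mul_nonneg (by linarith) s2
    nlinarith

lemma step_ineq {x y w w' b0 a1 : ℝ} (hx0 : 0 ≤ x) (hx1 : x ≤ 1) (hy0 : 0 ≤ y) (hy1 : y ≤ 1)
    (hw' : 0 ≤ w') (hww : w' ≤ w) (hw1 : w ≤ 1)
    (hw : w' * (w ^ 2 * (1 + w ^ 2 / 4)) ≤ 16 * (w - w'))
    (h1 : b0 ≤ 1 - x - w * (x * (1 - x))) (h2 : b0 ≤ 1 - y)
    (h3 : a1 ≤ 1 - y - w * (y * (1 - y))) (h4 : a1 ≤ 1 - x) :
    (b0 + a1) / 2 ≤ 1 - (x + y) / 2 - w' * ((x + y) / 2 * (1 - (x + y) / 2)) := by
  rcases le_total x y with h | h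
  · exact step_aux hx0 h hy1 hw' hww hw1 hw h1 h2 h3
  · have := step_aux hy0 h hx1 hw' hww hw1 hw h3 h4 h1
    rw [add_comm a1 b0, add_comm y x] at this
    exact this

/-- the constant -/
noncomputable def ww (n : ℕ) : ℝ := Real.sqrt (6 / ((n : ℝ) + 5))

lemma ww_nonneg (n : ℕ) : 0 ≤ ww n := Real.sqrt_nonneg _

lemma ww_sq (n : ℕ) : ww n ^ 2 = 6 / ((n : ℝ) + 5) := Real.sq_sqrt (by positivity)

lemma ww_le_one {n : ℕ} (hn : 1 ≤ n) : ww n ≤ 1 := by
  unfold ww
  have h1 : (1 : ℝ) ≤ n := by exact_mod_cast hn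
  have h2 : 6 / ((n : ℝ) + 5) ≤ 1 := by
    rw [div_le_one (by positivity)]
    linarith
  have h3 := Real.sqrt_le_sqrt h2
  rwa [Real.sqrt_one] at h3

lemma ww_mono (n : ℕ) : ww (n + 1) ≤ ww n := by
  unfold ww
  refine Real.sqrt_le_sqrt ?_
  push_cast
  exact div_le_div_of_nonneg_left (by norm_num) (by positivity) (by linarith)

lemma ww_step {n : ℕ} (hn : 1 ≤ n) :
    ww (n + 1) * (ww n ^ 2 * (1 + ww n ^ 2 / 4)) ≤ 16 * (ww n - ww (n + 1)) := by
  have hn' : (1 : ℝ) ≤ n := by exact_mod_cast hn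
  have key : ww (n + 1) * (1 + ww n ^ 2 * (1 + ww n ^ 2 / 4) / 16) ≤ ww n := by
    refine le_of_sq_le_sq ?_ (ww_nonneg n)
    rw [mul_pow, ww_sq, ww_sq]
    push_cast
    set m : ℝ := (n : ℝ) + 5 with hm
    have hm6 : 6 ≤ m := by linarith
    have e0 : (n : ℝ) + 1 + 5 = m + 1 := by rw [hm]; ring
    rw [e0]
    have hm0 : 0 < m := by linarith
    have e : 1 + 6 / m * (1 + 6 / m / 4) / 16 = (16 * m ^ 2 + 6 * m + 9) / (16 * m ^ 2) := by
      field_simp
      ring
    rw [e, div_pow, div_mul_div_comm, div_le_div_iff₀ (by positivity) hm0]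
    obtain ⟨r, hr⟩ : ∃ r, m = 6 + r := ⟨m - 6, by ring⟩
    have hr0 : 0 ≤ r := by linarith
    rw [hr]
    have hpos : 0 ≤ r ^ 4 + r ^ 3 + r ^ 2 + r := by positivity
    nlinarith [pow_nonneg hr0 2, pow_nonneg hr0 3, pow_nonneg hr0 4]
  linarith

theorem iso (x : ℕ) (l : List ℕ) : ∀ (u : Q (x :: l) → ℝ), (∀ q, u q = 0 ∨ u q = 1) →
    (∀ p q, adj (x :: l) p q → u p * u q = 0) →
    ob (x :: l) u ≤ 1 - ea (x :: l) u
      - ww (l.length + 1) * (ea (x :: l) u * (1 - ea (x :: l) u)) ∧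
    ea (x :: l) u ≤ 1 - ob (x :: l) u
      - ww (l.length + 1) * (ob (x :: l) u * (1 - ob (x :: l) u)) := by
  induction l generalizing x with
  | nil =>
    intro u h01 hadj
    rw [ea_one, ob_one]
    have h := hadj ((), false) ((), true) (Or.inr ⟨rfl, rfl, rfl⟩)
    rcases h01 ((), false) with h0 | h0 <;> rcases h01 ((), true) with h1 | h1 <;>
      rw [h0, h1] at h ⊢
    · norm_num
    · norm_num
    · norm_num
    · norm_num at h
  | cons y l ih =>
    intro u h01 hadj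
    have i0 := ih y (fun q => u (q, false)) (fun q => h01 _)
      fun p q hpq => hadj _ _ (Or.inl ⟨rfl, hpq⟩)
    have i1 := ih y (fun q => u (q, true)) (fun q => h01 _)
      fun p q hpq => hadj _ _ (Or.inl ⟨rfl, hpq⟩)
    have n0 := nonneg_le y l (fun q => u (q, false)) fun q => by
      rcases h01 (q, false) with h | h <;> rw [h] <;> norm_num
    have n1 := nonneg_le y l (fun q => u (q, true)) fun q => by
      rcases h01 (q, true) with h | h <;> rw [h] <;> norm_num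
    have m0 := le_one_le y l (fun q => u (q, false)) fun q => by
      rcases h01 (q, false) with h | h <;> rw [h] <;> norm_num
    have m1 := le_one_le y l (fun q => u (q, true)) fun q => by
      rcases h01 (q, true) with h | h <;> rw [h] <;> norm_num
    have hs := le_one_le y l (fun q => u (q, false) + u (q, true)) fun q => by
      have h := hadj (q, false) (q, true) (Or.inr ⟨rfl, rfl, rfl⟩)
      rcases h01 (q, false) with h0 | h0 <;> rcases h01 (q, true) with h1 | h1 <;>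
        rw [h0, h1] at h ⊢
      · norm_num
      · norm_num
      · norm_num
      · norm_num at h
    rw [ea_add, ob_add] at hs
    rw [ea_cons x (y :: l), ob_cons x (y :: l)]
    have hlen : (y :: l).length + 1 = (l.length + 1) + 1 := rfl
    rw [hlen]
    have w1 : ww (l.length + 1) ≤ 1 := ww_le_one (by omega)
    refine ⟨?_, ?_⟩
    · exact step_ineq n0.1 m0.1 n1.2 m1.2 (ww_nonneg _) (ww_mono _) w1 (ww_step (by omega))
        i0.1 (by linarith [hs.2]) i1.2 (by linarith [hs.1])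
    · exact step_ineq n0.2 m0.2 n1.1 m1.1 (ww_nonneg _) (ww_mono _) w1 (ww_step (by omega))
        i0.2 (by linarith [hs.1]) i1.1 (by linarith [hs.2])

/-- The pointwise inequality used for the density. -/
theorem point (x : ℕ) (l : List ℕ) (u : Q (x :: l) → ℝ) (h01 : ∀ q, u q = 0 ∨ u q = 1)
    (hadj : ∀ p q, adj (x :: l) p q → u p * u q = 0) :
    0 ≤ 1 - 2 * (1 + ww (l.length + 1) / 4) * tot (x :: l) u
      + ww (l.length + 1) * mm (x :: l) u ^ 2 := by
  have h := iso x l u h01 hadj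
  have n := nonneg_le x l u fun q => by
    rcases h01 q with h | h <;> rw [h] <;> norm_num
  have w0 : 0 ≤ ww (l.length + 1) := ww_nonneg _
  set w := ww (l.length + 1) with hw
  unfold ea ob at h n
  set t := tot (x :: l) u with ht
  set m := mm (x :: l) u with hm
  obtain ⟨h1, h2⟩ := h
  obtain ⟨n1, n2⟩ := n
  -- `τ = 1 - 2 t`
  have hmid : w * ((t + m) * (1 - (t + m)) + (t - m) * (1 - (t - m))) ≤ 2 * (1 - 2 * t) := by
    linarith
  have e : (t + m) * (1 - (t + m)) + (t - m) * (1 - (t - m))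
      = 2 * (1 / 4 - m ^ 2) - 2 * ((1 - 2 * t) ^ 2 / 4) := by ring
  rw [e] at hmid
  have t0 : 0 ≤ t := by linarith
  have hτ1 : 1 - 2 * t ≤ 1 := by linarith
  have hτ0 : 0 ≤ 1 - 2 * t := by
    have m1 := le_one_le x l u fun q => by
      rcases h01 q with h | h <;> rw [h] <;> norm_num
    unfold ea ob at m1
    rw [← ht, ← hm] at m1
    have : 0 ≤ w * ((t + m) * (1 - (t + m))) :=
      mul_nonneg w0 (mul_nonneg n1 (by linarith [m1.1]))
    linarith
  have hτ : (1 - 2 * t) ^ 2 ≤ 1 - 2 * t := by nlinarith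
  have hw' : w * (1 - 2 * t) ^ 2 ≤ w * (1 - 2 * t) := mul_le_mul_of_nonneg_left hτ w0
  nlinarith

end Pool.Agent.J4.H81.SR
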