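import Mathlib
import Pool.Agent.R814.PHJ.Main
import Pool.Agent.J4.H81.SR.Kern
import Pool.Agent.J4.H81.SR.Iso

set_option autoImplicit false

/-!
# Planting many disjoint cubes

`Bl l` is a set of indices consisting of one block for each entry of the list `l`; for a vertex `q`
of the cube, `pat l q` is the pattern in which the `d`-th powers of the blocks selected by `q` are
filled in.
-/

namespace Pool.Agent.J4.H81.SR

open Finset Filter Topology Pool.Agent.TH7.DH Pool.Agent.R814.PHJ

variable {d : ℕ}

/-- the indices: one block of size `x` for each entry `x` of the list -/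
def Bl : List ℕ → Type
  | [] => Empty
  | x :: l => Bl l ⊕ Fin x

noncomputable instance instBl : (l : List ℕ) → Fintype (Bl l)
  | [] => inferInstanceAs (Fintype Empty)
  | x :: l => haveI := instBl l; inferInstanceAs (Fintype (Bl l ⊕ Fin x))

/-- the union of two patterns on disjoint sets of indices -/
def jn {ι κ : Type} (P : (Fin d → ι) → Prop) (A : (Fin d → κ) → Prop) (c : Fin d → ι ⊕ κ) : Prop :=
  (∃ e : Fin d → ι, (∀ t, c t = Sum.inl (e t)) ∧ P e) ∨
    ∃ e : Fin d → κ, (∀ t, c t = Sum.inr (e t)) ∧ A e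

/-- the pattern consisting of the `d`-th powers of the selected blocks -/
def pat : (l : List ℕ) → Q l → (Fin d → Bl l) → Prop
  | [], _ => fun _ => False
  | _ :: l, q => jn (pat l q.1) (fun _ => q.2 = true)

lemma jn_inl (hd : 1 ≤ d) {ι κ : Type} (P : (Fin d → ι) → Prop) (A : (Fin d → κ) → Prop)
    (e : Fin d → ι) : jn P A (fun t => Sum.inl (e t)) ↔ P e := by
  constructor
  · rintro (⟨e', h, hP⟩ | ⟨e', h, -⟩)
    · have : e = e' := funext fun t => Sum.inl_injective (h t)
      rw [this]
      exact hP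
    · exact absurd (h ⟨0, hd⟩) (by simp)
  · intro h
    exact Or.inl ⟨e, fun _ => rfl, h⟩

lemma jn_inr (hd : 1 ≤ d) {ι κ : Type} (P : (Fin d → ι) → Prop) (A : (Fin d → κ) → Prop)
    (e : Fin d → κ) : jn P A (fun t => Sum.inr (e t)) ↔ A e := by
  constructor
  · rintro (⟨e', h, -⟩ | ⟨e', h, hP⟩)
    · exact absurd (h ⟨0, hd⟩) (by simp)
    · have : e = e' := funext fun t => Sum.inr_injective (h t)
      rw [this]
      exact hP
  · intro h
    exact Or.inr ⟨e, fun _ => rfl, h⟩

/-- A kernel obtained from the limit kernel by planting, besides the pattern in question, one of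
the patterns `P j`, and taking the combination with coefficients `t j`. -/
noncomputable def ext (R : Sys d) (hR : R.h₁ = R.h₂) (ι₀ : Type) [Fintype ι₀]
    (J : Type) [Fintype J] (t : J → ℝ) (P : J → (Fin d → ι₀) → Prop) : Kern d where
  K ι _ A B := ∑ i, ∑ j, t i * t j * R.K (ι₀ ⊕ ι) (jn (P i) A) (jn (P j) B)
  B := ∑ i, ∑ j, |t i * t j|
  bd ι _ A B := by
    refine (abs_sum_le_sum_abs _ _).trans (sum_le_sum fun i _ => ?_)
    refine (abs_sum_le_sum_abs _ _).trans (sum_le_sum fun j _ => ?_)
    rw [abs_mul]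
    have h := R.K_abs (ι₀ ⊕ ι) (jn (P i) A) (jn (P j) B)
    exact mul_le_of_le_one_right (abs_nonneg _) h
  loc := by
    intro ι ι' _ _ g A B h
    refine sum_congr rfl fun i _ => sum_congr rfl fun j _ => ?_
    congr 1
    have hinj : Function.Injective (Sum.map id g : ι₀ ⊕ ι' → ι₀ ⊕ ι) :=
      Function.injective_id.sumMap g.injective
    rw [R.K_loc (ι' := ι₀ ⊕ ι') ⟨Sum.map id g, hinj⟩]
    · have key : ∀ (P₀ : (Fin d → ι₀) → Prop) (A : (Fin d → ι) → Prop) (c : Fin d → ι₀ ⊕ ι'),
          jn P₀ A (fun t => Sum.map id g (c t)) ↔ jn P₀ (fun c => A fun t => g (c t)) c := by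
        intro P₀ A c
        constructor
        · rintro (⟨e, he, hP⟩ | ⟨e, he, hA⟩)
          · refine Or.inl ⟨e, fun t => ?_, hP⟩
            have h3 : Sum.map id g (c t) = Sum.inl (e t) := he t
            rcases hc : c t with x | x
            · rw [hc] at h3
              simpa using h3
            · rw [hc] at h3
              simp at h3
          · have : ∀ t, ∃ x, c t = Sum.inr x ∧ g x = e t := by
              intro t
              have h3 : Sum.map id g (c t) = Sum.inr (e t) := he t
              rcases hc : c t with x | x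
              · rw [hc] at h3
                simp at h3
              · rw [hc] at h3
                exact ⟨x, rfl, by simpa using h3⟩
            choose f hf hf' using this
            refine Or.inr ⟨f, hf, ?_⟩
            have e1 : (fun t => g (f t)) = e := funext hf'
            change A (fun t => g (f t))
            rw [e1]
            exact hA
        · rintro (⟨e, he, hP⟩ | ⟨e, he, hA⟩)
          · refine Or.inl ⟨e, fun t => ?_, hP⟩
            change Sum.map id g (c t) = _
            rw [he t]
            rfl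
          · refine Or.inr ⟨fun t => g (e t), fun t => ?_, hA⟩
            change Sum.map id g (c t) = _
            rw [he t]
            rfl
      exact R.K_congr (fun c => key _ _ c) (fun c => key _ _ c)
    · rintro c ⟨t, ht⟩
      have hc : ∃ y, c t = Sum.inr y ∧ y ∉ Set.range g := by
        rcases hct : c t with x | x
        · exact (ht ⟨Sum.inl x, by rw [hct]; rfl⟩).elim
        · refine ⟨x, rfl, ?_⟩
          rintro ⟨z, hz⟩
          exact ht ⟨Sum.inr z, by rw [hct, ← hz]; rfl⟩
      obtain ⟨y, hy, hyg⟩ := hc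
      constructor
      · rintro (⟨e, he, -⟩ | ⟨e, he, hA⟩)
        · have := he t
          rw [hy] at this
          cases this
        · refine Or.inr ⟨e, he, (h e ⟨t, ?_⟩).1 hA⟩
          have h2 := he t
          rw [hy] at h2
          rw [← Sum.inr_injective h2]
          exact hyg
      · rintro (⟨e, he, -⟩ | ⟨e, he, hA⟩)
        · have := he t
          rw [hy] at this
          cases this
        · refine Or.inr ⟨e, he, (h e ⟨t, ?_⟩).2 hA⟩
          have h2 := he t
          rw [hy] at h2
          rw [← Sum.inr_injective h2]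
          exact hyg
  sym ι _ A B := by
    rw [sum_comm]
    refine sum_congr rfl fun i _ => sum_congr rfl fun j _ => ?_
    rw [K_symm R hR, mul_comm (t j)]
  psd ι _ J' _ t' A := by
    have h := psdJ R hR (ι₀ ⊕ ι) (J := J' × J) (fun p => t' p.1 * t p.2)
      (fun p => jn (P p.2) (A p.1))
    refine h.trans (le_of_eq ?_)
    simp only [Fintype.sum_prod_type, mul_sum]
    refine sum_congr rfl fun i' _ => ?_
    rw [sum_comm]
    refine sum_congr rfl fun j' _ => ?_
    refine sum_congr rfl fun i _ => sum_congr rfl fun j _ => ?_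
    ring

lemma ext_v (hd : 1 ≤ d) (R : Sys d) (hR : R.h₁ = R.h₂) (ι₀ : Type) [Fintype ι₀]
    (J : Type) [Fintype J] (t : J → ℝ) (P : J → (Fin d → ι₀) → Prop) :
    (ext R hR ι₀ J t P).v = ∑ i, ∑ j, t i * t j * R.K ι₀ (P i) (P j) := by
  change ∑ i, ∑ j, t i * t j * R.K (ι₀ ⊕ Empty) (jn (P i) fun _ => True) (jn (P j) fun _ => True)
    = _
  refine sum_congr rfl fun i _ => sum_congr rfl fun j _ => ?_
  congr 1
  rw [R.K_loc (ι' := ι₀) Function.Embedding.inl]
  · exact R.K_congr (fun c => jn_inl hd _ _ c) (fun c => jn_inl hd _ _ c)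
  · rintro c ⟨t, ht⟩
    rcases hct : c t with x | x
    · exact (ht ⟨x, hct.symm⟩).elim
    · exact x.elim

/-- the mean square of the signed average over the cube -/
noncomputable def En (R : Sys d) (l : List ℕ) : ℝ :=
  ∑ q, ∑ q', sg l q * sg l q' * R.K (Bl l) (pat l q) (pat l q')

/-- the kernel belonging to the signed average over the cube -/
noncomputable def KE (R : Sys d) (hR : R.h₁ = R.h₂) (l : List ℕ) : Kern d :=
  ext R hR (Bl l) (Q l) (sg l) (pat l)

lemma KE_v (hd : 1 ≤ d) (R : Sys d) (hR : R.h₁ = R.h₂) (l : List ℕ) :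
    (KE R hR l).v = En R l := ext_v hd R hR _ _ _ _

lemma En_cons (hd : 1 ≤ d) (R : Sys d) (hR : R.h₁ = R.h₂) (x : ℕ) (l : List ℕ) :
    En R (x :: l) = (En R l - (KE R hR l).K (Fin x) (fun _ => False) (fun _ => True)) / 2 := by
  set S := KE R hR l with hS
  have e : ∀ b b' : Bool, S.K (Fin x) (fun _ => b = true) (fun _ => b' = true)
      = ∑ q, ∑ q', sg l q * sg l q' * R.K (Bl (x :: l)) (pat (x :: l) (q, b))
        (pat (x :: l) (q', b')) := fun b b' => rfl
  have hff : S.K (Fin x) (fun _ => false = true) (fun _ => false = true) = En R l := by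
    rw [S.K_same _ hd _ _ fun _ => Iff.rfl, hS, KE_v hd]
  have htt : S.K (Fin x) (fun _ => true = true) (fun _ => true = true) = En R l := by
    rw [S.K_same _ hd _ _ fun _ => Iff.rfl, hS, KE_v hd]
  have hft : S.K (Fin x) (fun _ => false = true) (fun _ => true = true)
      = S.K (Fin x) (fun _ => False) (fun _ => True) :=
    S.K_congr (fun _ => by simp) (fun _ => by simp)
  have htf : S.K (Fin x) (fun _ => true = true) (fun _ => false = true)
      = S.K (Fin x) (fun _ => False) (fun _ => True) := by
    rw [S.sym]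
    exact hft
  have h1 : En R (x :: l) = ∑ q : Q l, ∑ q' : Q l, (
      1 / 4 * (sg l q * sg l q' * R.K (Bl (x :: l)) (pat (x :: l) (q, false))
        (pat (x :: l) (q', false)))
      + (-(1 / 4)) * (sg l q * sg l q' * R.K (Bl (x :: l)) (pat (x :: l) (q, false))
        (pat (x :: l) (q', true)))
      + (-(1 / 4)) * (sg l q * sg l q' * R.K (Bl (x :: l)) (pat (x :: l) (q, true))
        (pat (x :: l) (q', false)))
      + 1 / 4 * (sg l q * sg l q' * R.K (Bl (x :: l)) (pat (x :: l) (q, true))
        (pat (x :: l) (q', true)))) := by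
    unfold En
    rw [sum_cons, ← sum_add_distrib]
    refine sum_congr rfl fun q _ => ?_
    rw [sum_cons, sum_cons, ← sum_add_distrib, ← sum_add_distrib, ← sum_add_distrib]
    refine sum_congr rfl fun q' _ => ?_
    simp only [sg]
    norm_num
    ring
  rw [h1]
  simp only [sum_add_distrib, ← mul_sum]
  rw [← e, ← e, ← e, ← e, hff, htt, hft, htf]
  ring

/-- the size of a new block can be chosen well -/
lemma exists_size (hd : 1 ≤ d) (S : Kern d) {ε : ℝ} (hε : 0 < ε) :
    ∃ s : ℕ, 1 ≤ s ∧ -(1 - 2 * (1 / 2) ^ d) * S.v - ε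
      ≤ S.K (Fin s) (fun _ => False) (fun _ => True) := by
  have h := S.main hd d le_rfl Empty (fun x => x.elim) (fun x => x.elim)
  rw [Nat.sub_self] at h
  have h0 : S.κ 0 Empty (fun x => x.elim) 0 = S.v := by
    unfold Kern.κ Kern.Φ
    refine S.K_same _ hd _ _ fun c => ?_
    rcases c ⟨0, hd⟩ with x | x
    · exact x.elim
    · exact x.elim0
  have hs : ∀ s, S.κ 0 Empty (fun x => x.elim) s
      = S.K (Fin s) (fun _ => False) (fun _ => True) := by
    intro s
    unfold Kern.κ Kern.Φ
    rw [S.loc (ι' := Fin s) Function.Embedding.inr]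
    · refine S.K_congr (fun c => ?_) fun _ => Iff.rfl
      simp [Hit]
    · rintro c ⟨t, ht⟩
      rcases hct : c t with x | x
      · exact x.elim
      · exact (ht ⟨x, hct.symm⟩).elim
  rw [h0] at h
  have h1 := (abs_le.1 h).1
  have hb := S.κ_bdd 0 Empty (fun x => x.elim)
  have h2 : mean (fun s => (-1) * S.κ 0 Empty (fun x => x.elim) s)
      ≤ (1 - 2 * (1 / 2) ^ d) * S.v := by
    rw [mean_smul _ hb]
    linarith
  obtain ⟨s, hs1, hs2⟩ := exists_le_of_mean (hb.smul (-1)) h2 hε 1
  refine ⟨s, hs1, ?_⟩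
  rw [hs] at hs2
  linarith

variable {V : Ultrafilter ℕ} {hV : (V : Filter ℕ) ≤ atTop}
  {S : (N : ℕ) → Finset (Finset (Fin d → Fin N))}

/-- averaging a pointwise inequality -/
theorem avgK (ι : Type) [Fintype ι] {J : Type} [Fintype J] (P : J → (Fin d → ι) → Prop)
    (M : J → J → ℝ)
    (h : ∀ (N : ℕ) (φ : ι ↪ Fin N) (A : Finset (Fin d → Fin N)),
      0 ≤ 1 + ∑ i, ∑ j, M i j * (ind (S N) (ow φ (P i) A) * ind (S N) (ow φ (P j) A))) :
    0 ≤ 1 + ∑ i, ∑ j, M i j * (raw V hV S).K ι (P i) (P j) := by
  set R := raw V hV S with hR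
  refine ge_of_tendsto' (f := fun N => 1 + ∑ i, ∑ j, M i j
    * KN N (R.h₁ N) (R.h₂ N) ι (P i) (P j)) (b := 0) (x := (V : Filter ℕ)) ?_ ?_
  · exact tendsto_const_nhds.add (tendsto_finsetSum _ fun i _ => tendsto_finsetSum _ fun j _ =>
      (R.tendsto ι (P i) (P j)).const_mul _)
  · intro N
    have h0 : 0 ≤ av (fun φ : ι ↪ Fin N => av (fun A : Finset (Fin d → Fin N) =>
        1 + ∑ i, ∑ j, M i j * (ind (S N) (ow φ (P i) A) * ind (S N) (ow φ (P j) A)))) :=
      av_nonneg fun φ => av_nonneg fun A => h N φ A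
    have hone : av (fun _ : ι ↪ Fin N => av (fun _ : Finset (Fin d → Fin N) => (1 : ℝ))) ≤ 1 :=
      (abs_le.1 (av_abs_le zero_le_one fun _ => av_abs_le zero_le_one fun _ => by simp)).2
    simp only [av_add, av_smul, av_sum] at h0
    have k : ∀ P Q : (Fin d → ι) → Prop,
        av (fun φ : ι ↪ Fin N => av (fun A => ind (S N) (ow φ P A) * ind (S N) (ow φ Q A)))
          = KN N (R.h₁ N) (R.h₂ N) ι P Q := fun P Q => rfl
    simp only [k] at h0
    linarith

/-- neighbouring vertices of the cube differ by a planted cube -/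
lemma adj_cube (hd : 1 ≤ d) : ∀ (l : List ℕ), (∀ x ∈ l, 1 ≤ x) → ∀ p q : Q l, adj l p q →
    ∃ γ : Finset (Bl l), γ.Nonempty ∧ (∀ c : Fin d → Bl l, (∀ t, c t ∈ γ) → ¬ pat l p c) ∧
      ∀ c : Fin d → Bl l, pat l q c ↔ pat l p c ∨ ∀ t, c t ∈ γ := by
  classical
  intro l
  induction l with
  | nil =>
    intro _ p q h
    exact h.elim
  | cons x l ih =>
    intro hl p q h
    obtain ⟨p, b⟩ := p
    obtain ⟨q, b'⟩ := q
    rcases h with ⟨h1, h2⟩ | ⟨h1, h2, h3⟩
    · have h1 : b = b' := h1
      subst h1
      obtain ⟨γ, hγ, hγ1, hγ2⟩ := ih (fun y hy => hl y (List.mem_cons_of_mem _ hy)) p q h2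
      refine ⟨γ.map (Function.Embedding.inl : Bl l ↪ Bl l ⊕ Fin x), hγ.map, ?_, ?_⟩
      · intro c hc hP
        have : ∀ t, ∃ y, y ∈ γ ∧ Sum.inl y = c t := fun t => by
          exact Finset.mem_map.1 (hc t)
        choose e he he' using this
        have hce : c = fun t => Sum.inl (e t) := funext fun t => (he' t).symm
        rw [hce] at hP
        exact hγ1 e he ((jn_inl hd (pat l p) (fun _ => b = true) e).1 hP)
      · intro c
        have hmem : (∀ t, c t ∈ γ.map (Function.Embedding.inl : Bl l ↪ Bl l ⊕ Fin x)) ↔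
            ∃ e : Fin d → Bl l, (∀ t, c t = Sum.inl (e t)) ∧ ∀ t, e t ∈ γ := by
          constructor
          · intro hc
            have : ∀ t, ∃ y, y ∈ γ ∧ Sum.inl y = c t := fun t => by
              exact Finset.mem_map.1 (hc t)
            choose e he he' using this
            exact ⟨e, fun t => (he' t).symm, he⟩
          · rintro ⟨e, he, he'⟩ t
            rw [he t]
            exact mem_map_of_mem _ (he' t)
        constructor
        · rintro (⟨e, he, hP⟩ | ⟨e, he, hA⟩)
          · rcases (hγ2 e).1 hP with h | h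
            · exact Or.inl (Or.inl ⟨e, he, h⟩)
            · exact Or.inr (hmem.2 ⟨e, he, h⟩)
          · exact Or.inl (Or.inr ⟨e, he, hA⟩)
        · rintro ((⟨e, he, hP⟩ | ⟨e, he, hA⟩) | hc)
          · exact Or.inl ⟨e, he, (hγ2 e).2 (Or.inl hP)⟩
          · exact Or.inr ⟨e, he, hA⟩
          · obtain ⟨e, he, he'⟩ := hmem.1 hc
            exact Or.inl ⟨e, he, (hγ2 e).2 (Or.inr he')⟩
    · have h1 : p = q := h1
      have h2 : b = false := h2
      have h3 : b' = true := h3
      subst h1
      subst h2
      subst h3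
      have hx : 1 ≤ x := hl x (List.mem_cons_self ..)
      refine ⟨(univ : Finset (Fin x)).map (Function.Embedding.inr : Fin x ↪ Bl l ⊕ Fin x),
        Finset.Nonempty.map ⟨⟨0, hx⟩, mem_univ _⟩, ?_, ?_⟩
      · intro c hc hP
        have : ∀ t, ∃ y, Sum.inr y = c t := fun t => by
          obtain ⟨y, -, hy⟩ := Finset.mem_map.1 (hc t)
          exact ⟨y, hy⟩
        choose e he using this
        have hce : c = fun t => Sum.inr (e t) := funext fun t => (he t).symm
        rw [hce] at hP
        have := (jn_inr hd (pat l p) (fun _ => false = true) e).1 hP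
        exact absurd this (by simp)
      · intro c
        constructor
        · rintro (⟨e, he, hP⟩ | ⟨e, he, -⟩)
          · exact Or.inl (Or.inl ⟨e, he, hP⟩)
          · right
            intro t
            rw [he t]
            exact mem_map_of_mem _ (mem_univ _)
        · rintro ((⟨e, he, hP⟩ | ⟨e, he, hA⟩) | hc)
          · exact Or.inl ⟨e, he, hP⟩
          · exact absurd hA (by simp)
          · have : ∀ t, ∃ y, Sum.inr y = c t := fun t => by
              obtain ⟨y, -, hy⟩ := Finset.mem_map.1 (hc t)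
              exact ⟨y, hy⟩
            choose e he using this
            exact Or.inr ⟨e, fun t => (he t).symm, rfl⟩

end Pool.Agent.J4.H81.SR
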