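import Mathlib
import Pool.Agent.J4.H81.SR.Blk

set_option autoImplicit false

/-!
# The bound for the density
-/

namespace Pool.Agent.J4.H81.SR

open Finset Filter Topology Pool.Agent.TH7.DH Pool.Agent.R814.PHJ

variable {d : ℕ} {V : Ultrafilter ℕ} {hV : (V : Filter ℕ) ≤ atTop}
  {S : (N : ℕ) → Finset (Finset (Fin d → Fin N))}

lemma En_one (hd : 1 ≤ d) (hS : Adm S) : En (raw V hV S) [1] = (raw V hV S).v / 2 := by
  set R := raw V hV S with hR
  have h0 : (KE R rfl []).K (Fin 1) (fun _ => False) (fun _ => True) = 0 := by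
    change ∑ i : Q [], ∑ j : Q [], sg [] i * sg [] j * R.K (Bl [] ⊕ Fin 1)
      (jn (pat [] i) fun _ => False) (jn (pat [] j) fun _ => True) = 0
    refine sum_eq_zero fun i _ => sum_eq_zero fun j _ => ?_
    have h : R.K (Bl [] ⊕ Fin 1) (jn (pat [] i) fun _ => False) (jn (pat [] j) fun _ => True)
        = 0 := by
      refine raw_zero _ _ _ ?_
      refine excl hS ((univ : Finset (Fin 1)).map
        (Function.Embedding.inr : Fin 1 ↪ Bl [] ⊕ Fin 1))
        (Finset.Nonempty.map ⟨0, mem_univ _⟩) ?_ ?_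
      · rintro c - (⟨e, -, h⟩ | ⟨e, -, h⟩)
        · exact h
        · exact h
      · intro c
        constructor
        · rintro (⟨e, -, h⟩ | ⟨e, he, -⟩)
          · exact h.elim
          · right
            intro t
            rw [he t]
            exact mem_map_of_mem _ (mem_univ _)
        · rintro ((⟨e, -, h⟩ | ⟨e, -, h⟩) | hc)
          · exact h.elim
          · exact h.elim
          · have : ∀ t, ∃ y, Sum.inr y = c t := fun t => by
              obtain ⟨y, -, hy⟩ := Finset.mem_map.1 (hc t)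
              exact ⟨y, hy⟩
            choose e he using this
            exact Or.inr ⟨e, fun t => (he t).symm, trivial⟩
    rw [h, mul_zero]
  rw [En_cons hd R rfl 1 [], h0, sub_zero]
  congr 1
  change ∑ i : Q [], ∑ j : Q [], sg [] i * sg [] j * R.K (Bl []) (pat [] i) (pat [] j) = _
  have h1 : ∀ i j : Q [], sg [] i * sg [] j * R.K (Bl []) (pat [] i) (pat [] j) = R.v := by
    intro i j
    have h2 : R.K (Bl []) (pat [] i) (pat [] j) = R.v := R.K_same _ hd _ _ fun _ => Iff.rfl
    rw [h2]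
    change (1 : ℝ) * 1 * R.v = R.v
    ring
  simp only [h1]
  have h3 : Fintype.card (Q []) = 1 := Fintype.card_unit
  rw [sum_const, sum_const, card_univ, h3]
  simp

/-- With well chosen block sizes the mean square of the signed average decays exponentially. -/
lemma exists_list (hd : 1 ≤ d) (hS : Adm S) (n : ℕ) : ∀ ε : ℝ, 0 < ε →
    ∃ (x : ℕ) (l : List ℕ), l.length = n ∧ (∀ y ∈ x :: l, 1 ≤ y) ∧
      En (raw V hV S) (x :: l)
        ≤ (1 - (1 / 2) ^ d) ^ n * ((raw V hV S).v / 2) + ε := by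
  set R := raw V hV S with hR
  have hρ0 : (0 : ℝ) ≤ 1 - (1 / 2) ^ d := by
    have : ((1 : ℝ) / 2) ^ d ≤ 1 := pow_le_one₀ (by norm_num) (by norm_num)
    linarith
  have hρ1 : (1 : ℝ) - (1 / 2) ^ d ≤ 1 := by
    have : (0 : ℝ) ≤ (1 / 2) ^ d := by positivity
    linarith
  induction n with
  | zero =>
    intro ε hε
    refine ⟨1, [], rfl, ?_, ?_⟩
    · intro y hy
      rw [List.mem_singleton] at hy
      omega
    · rw [En_one hd hS, pow_zero, one_mul]
      linarith
  | succ n ih =>
    intro ε hε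
    obtain ⟨x, l, hl, hy, hE⟩ := ih (ε / 2) (by linarith)
    obtain ⟨s, hs1, hs2⟩ := exists_size hd (KE R rfl (x :: l)) hε
    refine ⟨s, x :: l, by simp [hl], ?_, ?_⟩
    · intro y hy'
      rcases List.mem_cons.1 hy' with h | h
      · omega
      · exact hy y h
    · rw [En_cons hd R rfl s (x :: l)]
      rw [KE_v hd R rfl] at hs2
      have h1 : (1 - (1 / 2) ^ d) * En R (x :: l)
          ≤ (1 - (1 / 2) ^ d) * ((1 - (1 / 2) ^ d) ^ n * (R.v / 2) + ε / 2) :=
        mul_le_mul_of_nonneg_left hE hρ0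
      have h2 : (1 - (1 / 2) ^ d) * (ε / 2) ≤ 1 * (ε / 2) :=
        mul_le_mul_of_nonneg_right hρ1 (by linarith)
      have h3 : (1 - ((1 : ℝ) / 2) ^ d) ^ (n + 1) * (R.v / 2)
          = (1 - (1 / 2) ^ d) * ((1 - (1 / 2) ^ d) ^ n * (R.v / 2)) := by ring
      rw [h3]
      linarith

/-- The basic inequality for the density. -/
lemma basic (hd : 1 ≤ d) (hS : Adm S) (x : ℕ) (l : List ℕ) (hl : ∀ y ∈ x :: l, 1 ≤ y) :
    0 ≤ 1 - 2 * (1 + ww (l.length + 1) / 4) * (raw V hV S).v
      + ww (l.length + 1) * En (raw V hV S) (x :: l) := by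
  classical
  set R := raw V hV S with hR
  set w := ww (l.length + 1) with hw
  set a := 2 * (1 + w / 4) with ha
  have key := avgK (V := V) (hV := hV) (S := S) (Bl (x :: l)) (pat (x :: l))
    (fun q q' => w * (sg (x :: l) q * sg (x :: l) q')
      - (if q = q' then a * tw (x :: l) else 0)) ?_
  · have e1 : ∑ q, ∑ q', (w * (sg (x :: l) q * sg (x :: l) q')
        - (if q = q' then a * tw (x :: l) else 0)) * R.K (Bl (x :: l)) (pat (x :: l) q)
          (pat (x :: l) q')
        = w * En R (x :: l) - ∑ q : Q (x :: l), a * tw (x :: l) * R.v := by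
      unfold En
      rw [mul_sum, ← sum_sub_distrib]
      refine sum_congr rfl fun q _ => ?_
      have e2 : R.K (Bl (x :: l)) (pat (x :: l) q) (pat (x :: l) q) = R.v :=
        R.K_same _ hd _ _ fun _ => Iff.rfl
      rw [← e2, mul_sum]
      simp only [sub_mul, sum_sub_distrib, ite_mul, zero_mul, sum_ite_eq, mem_univ, if_true]
      congr 1
      refine sum_congr rfl fun q' _ => ?_
      ring
    have e3 : ∀ l : List ℕ, ∑ _q : Q l, tw l = 1 := by
      intro l
      induction l with
      | nil =>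
        have h3 : Fintype.card (Q []) = 1 := Fintype.card_unit
        rw [sum_const, card_univ, h3]
        simp [tw]
      | cons x l ih =>
        rw [sum_cons, ← ih, ← sum_add_distrib]
        refine sum_congr rfl fun q _ => ?_
        simp only [tw]
        ring
    have e4 : ∑ q : Q (x :: l), a * tw (x :: l) * R.v = a * R.v := by
      have h5 : ∑ q : Q (x :: l), a * tw (x :: l) * R.v
          = ∑ q : Q (x :: l), a * R.v * tw (x :: l) := sum_congr rfl fun q _ => by ring
      rw [h5, ← mul_sum, e3, mul_one]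
    rw [e1, e4] at key
    linarith
  · intro N φ A
    have h := point x l (fun q => ind (S N) (ow φ (pat (x :: l) q) A)) (fun q => ind01 _ _) ?_
    · rw [← hw, ← ha] at h
      refine h.trans (le_of_eq ?_)
      have e1 : ∑ q, ∑ q', (w * (sg (x :: l) q * sg (x :: l) q')
          - (if q = q' then a * tw (x :: l) else 0)) * (ind (S N) (ow φ (pat (x :: l) q) A)
            * ind (S N) (ow φ (pat (x :: l) q') A))
          = w * mm (x :: l) (fun q => ind (S N) (ow φ (pat (x :: l) q) A)) ^ 2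
            - a * tot (x :: l) (fun q => ind (S N) (ow φ (pat (x :: l) q) A)) := by
        unfold mm tot
        rw [sq, sum_mul_sum, mul_sum, mul_sum, ← sum_sub_distrib]
        refine sum_congr rfl fun q _ => ?_
        rw [mul_sum]
        simp only [sub_mul, sum_sub_distrib, ite_mul, zero_mul, sum_ite_eq, mem_univ, if_true]
        rw [ind_mul_self]
        congr 1
        · refine sum_congr rfl fun q' _ => ?_
          ring
        · ring
      rw [e1]
      ring
    · intro p q hpq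
      obtain ⟨γ, hγ, h1, h2⟩ := adj_cube hd (x :: l) hl p q hpq
      exact ind_excl (excl hS γ hγ h1 h2 N φ A)

theorem density_le (hd : 1 ≤ d) (hS : Adm S) :
    (raw V hV S).v * (16 + 3 / Real.sqrt (2 ^ d / 4 + 1)) ≤ 8 := by
  set R := raw V hV S with hR
  have v0 : 0 ≤ R.v := Pool.Agent.R814.PHJ.v_nonneg
  set n := 3 * 2 ^ (d - 1) with hn
  set w := ww (n + 1) with hw
  have w0 : 0 ≤ w := ww_nonneg _
  -- the value of `w`
  have hw1 : w = 1 / Real.sqrt (2 ^ d / 4 + 1) := by
    rw [hw, ww]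
    have e : 6 / (((n + 1 : ℕ) : ℝ) + 5) = 1 / (2 ^ d / 4 + 1) := by
      obtain ⟨e, rfl⟩ : ∃ e, d = e + 1 := ⟨d - 1, by omega⟩
      rw [hn, Nat.add_sub_cancel]
      push_cast
      rw [div_eq_div_iff (by positivity) (by positivity), pow_succ]
      ring
    rw [e, Real.sqrt_div zero_le_one, Real.sqrt_one]
  -- the power
  have hρ : (1 - ((1 : ℝ) / 2) ^ d) ^ n ≤ 1 / 4 := by
    have h1 : (1 - ((1 : ℝ) / 2) ^ d) ≤ Real.exp (-(1 / 2) ^ d) := by
      have := Real.add_one_le_exp (-((1 : ℝ) / 2) ^ d)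
      linarith
    have h0 : (0 : ℝ) ≤ 1 - (1 / 2) ^ d := by
      have : ((1 : ℝ) / 2) ^ d ≤ 1 := pow_le_one₀ (by norm_num) (by norm_num)
      linarith
    have h2 : (1 - ((1 : ℝ) / 2) ^ d) ^ n ≤ Real.exp (-(1 / 2) ^ d) ^ n :=
      pow_le_pow_left₀ h0 h1 n
    have h3 : Real.exp (-(1 / 2) ^ d) ^ n = Real.exp (-(3 / 2)) := by
      rw [← Real.exp_nat_mul]
      congr 1
      rw [hn]
      obtain ⟨e, rfl⟩ : ∃ e, d = e + 1 := ⟨d - 1, by omega⟩
      rw [Nat.add_sub_cancel]
      push_cast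
      have : (2 : ℝ) ^ e * (1 / 2) ^ e = 1 := by
        rw [← mul_pow]
        norm_num
      rw [pow_succ]
      linear_combination (-(3 : ℝ) / 2) * this
    have h4 : (4 : ℝ) ≤ Real.exp (3 / 2) := by
      have h5 : (16 : ℝ) ≤ Real.exp (3 / 2) ^ 2 := by
        rw [← Real.exp_nat_mul]
        have e : ((2 : ℕ) : ℝ) * (3 / 2) = ((3 : ℕ) : ℝ) * 1 := by norm_num
        rw [e, Real.exp_nat_mul]
        have h6 : (2.7 : ℝ) ≤ Real.exp 1 := by
          have := Real.exp_one_gt_d9
          linarith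
        have h7 : (2.7 : ℝ) ^ 3 ≤ Real.exp 1 ^ 3 := pow_le_pow_left₀ (by norm_num) h6 3
        norm_num at h7 ⊢
        linarith
      nlinarith [Real.exp_pos (3 / 2 : ℝ)]
    rw [h3, Real.exp_neg] at h2
    refine h2.trans ?_
    rw [inv_le_comm₀ (Real.exp_pos _) (by norm_num)]
    linarith
  -- the inequality up to `ε`
  have main : ∀ ε : ℝ, 0 < ε → 0 ≤ 1 - 2 * (1 + w / 4) * R.v + w * (R.v / 8) + ε := by
    intro ε hε
    obtain ⟨x, l, hl, hy, hE⟩ := exists_list (V := V) (hV := hV) hd hS n ε hε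
    have h := basic (V := V) (hV := hV) hd hS x l hy
    rw [hl, ← hw, ← hR] at h
    rw [← hR] at hE
    have h1 : (1 - ((1 : ℝ) / 2) ^ d) ^ n * (R.v / 2) ≤ 1 / 4 * (R.v / 2) :=
      mul_le_mul_of_nonneg_right hρ (by linarith)
    have h2 : w * En R (x :: l) ≤ w * (1 / 4 * (R.v / 2) + ε) :=
      mul_le_mul_of_nonneg_left (by linarith) w0
    have w1 : w ≤ 1 := ww_le_one (by omega)
    have h3 : w * ε ≤ 1 * ε := mul_le_mul_of_nonneg_right w1 hε.le
    linarith
  have h1 : 0 ≤ 1 - 2 * (1 + w / 4) * R.v + w * (R.v / 8) :=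
    le_of_forall_pos_le_add main
  have h2 : 3 / Real.sqrt (2 ^ d / 4 + 1) = 3 * w := by
    rw [hw1]
    ring
  rw [h2]
  linarith

end Pool.Agent.J4.H81.SR
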