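import Mathlib
import Pool.Agent.J4.H81.SR.Main

set_option autoImplicit false

/-!
# Four cubes

An independent set with `e` even and `o` odd vertices of the four-dimensional cube satisfies
`55 (e + o) ≤ 248 + 3 (e - o)²`. This gives a better bound for the density when `d` is small.
-/

namespace Pool.Agent.J4.H81.SR

open Finset Filter Topology Pool.Agent.TH7.DH Pool.Agent.R814.PHJ

/-- an independent set of the cube -/
def Ids (l : List ℕ) (u : Q l → ℝ) : Prop :=
  (∀ q, u q = 0 ∨ u q = 1) ∧ ∀ p q, adj l p q → u p * u q = 0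

lemma Ids.half {x : ℕ} {l : List ℕ} {u : Q (x :: l) → ℝ} (h : Ids (x :: l) u) (b : Bool) :
    Ids l (fun q => u (q, b)) :=
  ⟨fun _ => h.1 _, fun p q hpq => h.2 (p, b) (q, b) (Or.inl ⟨rfl, hpq⟩)⟩

lemma Ids.sum_le {x y : ℕ} {l : List ℕ} {u : Q (x :: y :: l) → ℝ} (h : Ids (x :: y :: l) u) :
    ea (y :: l) (fun q => u (q, false)) + ea (y :: l) (fun q => u (q, true)) ≤ 1 ∧
    ob (y :: l) (fun q => u (q, false)) + ob (y :: l) (fun q => u (q, true)) ≤ 1 := by
  have hs := le_one_le y l (fun q => u (q, false) + u (q, true)) fun q => by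
    have h2 := h.2 (q, false) (q, true) (Or.inr ⟨rfl, rfl, rfl⟩)
    rcases h.1 (q, false) with h0 | h0 <;> rcases h.1 (q, true) with h1 | h1 <;>
      rw [h0, h1] at h2 ⊢
    · norm_num
    · norm_num
    · norm_num
    · norm_num at h2
  rw [ea_add, ob_add] at hs
  exact hs

lemma lev1 {x : ℕ} {u : Q [x] → ℝ} (h : Ids [x] u) :
    ∃ e o : ℕ, ea [x] u = e ∧ ob [x] u = o ∧ e + o ≤ 1 := by
  rw [ea_one, ob_one]
  have h2 := h.2 ((), false) ((), true) (Or.inr ⟨rfl, rfl, rfl⟩)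
  rcases h.1 ((), false) with h0 | h0 <;> rcases h.1 ((), true) with h1 | h1 <;>
    rw [h0, h1] at h2 ⊢
  · exact ⟨0, 0, by simp, by simp, by simp⟩
  · exact ⟨0, 1, by simp, by simp, by simp⟩
  · exact ⟨1, 0, by simp, by simp, by simp⟩
  · norm_num at h2

lemma lev2 {x y : ℕ} {u : Q [x, y] → ℝ} (h : Ids [x, y] u) :
    ∃ e o : ℕ, ea [x, y] u = e / 2 ∧ ob [x, y] u = o / 2 ∧ e ≤ 2 ∧ o ≤ 2 ∧
      (1 ≤ e → o = 0) := by
  obtain ⟨e0, o0, he0, ho0, h0⟩ := lev1 (h.half false)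
  obtain ⟨e1, o1, he1, ho1, h1⟩ := lev1 (h.half true)
  obtain ⟨s1, s2⟩ := h.sum_le
  rw [he0, he1] at s1
  rw [ho0, ho1] at s2
  have s1' : e0 + e1 ≤ 1 := by exact_mod_cast s1
  have s2' : o0 + o1 ≤ 1 := by exact_mod_cast s2
  refine ⟨e0 + o1, o0 + e1, ?_, ?_, by omega, by omega, by omega⟩
  · rw [ea_cons x [y], he0, ho1]
    push_cast
    ring
  · rw [ob_cons x [y], ho0, he1]
    push_cast
    ring

lemma lev3 {x y z : ℕ} {u : Q [x, y, z] → ℝ} (h : Ids [x, y, z] u) :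
    ∃ e o : ℕ, ea [x, y, z] u = e / 4 ∧ ob [x, y, z] u = o / 4 ∧ e ≤ 4 ∧ o ≤ 4 ∧
      (2 ≤ e → o = 0) ∧ (e = 1 → o ≤ 1) := by
  obtain ⟨e0, o0, he0, ho0, h0, h0', h0''⟩ := lev2 (h.half false)
  obtain ⟨e1, o1, he1, ho1, h1, h1', h1''⟩ := lev2 (h.half true)
  obtain ⟨s1, s2⟩ := h.sum_le
  rw [he0, he1] at s1
  rw [ho0, ho1] at s2
  have s1' : e0 + e1 ≤ 2 := by
    have : (e0 : ℝ) + e1 ≤ 2 := by linarith
    exact_mod_cast this
  have s2' : o0 + o1 ≤ 2 := by
    have : (o0 : ℝ) + o1 ≤ 2 := by linarith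
    exact_mod_cast this
  refine ⟨e0 + o1, o0 + e1, ?_, ?_, by omega, by omega, by omega, by omega⟩
  · rw [ea_cons x [y, z], he0, ho1]
    push_cast
    ring
  · rw [ob_cons x [y, z], ho0, he1]
    push_cast
    ring

lemma lev4 {x y z w : ℕ} {u : Q [x, y, z, w] → ℝ} (h : Ids [x, y, z, w] u) :
    ∃ e o : ℕ, ea [x, y, z, w] u = e / 8 ∧ ob [x, y, z, w] u = o / 8 ∧ e ≤ 8 ∧ o ≤ 8 ∧
      (e = 1 → o ≤ 4) ∧ (e = 2 → o ≤ 2) ∧ (3 ≤ e → o ≤ 1) ∧ (5 ≤ e → o = 0) := by
  obtain ⟨e0, o0, he0, ho0, h0, h0', h0a, h0b⟩ := lev3 (h.half false)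
  obtain ⟨e1, o1, he1, ho1, h1, h1', h1a, h1b⟩ := lev3 (h.half true)
  obtain ⟨s1, s2⟩ := h.sum_le
  rw [he0, he1] at s1
  rw [ho0, ho1] at s2
  have s1' : e0 + e1 ≤ 4 := by
    have : (e0 : ℝ) + e1 ≤ 4 := by linarith
    exact_mod_cast this
  have s2' : o0 + o1 ≤ 4 := by
    have : (o0 : ℝ) + o1 ≤ 4 := by linarith
    exact_mod_cast this
  refine ⟨e0 + o1, o0 + e1, ?_, ?_, by omega, by omega, by omega, by omega, by omega, by omega⟩
  · rw [ea_cons x [y, z, w], he0, ho1]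
    push_cast
    ring
  · rw [ob_cons x [y, z, w], ho0, he1]
    push_cast
    ring

lemma four_point {x y z w : ℕ} {u : Q [x, y, z, w] → ℝ} (h : Ids [x, y, z, w] u) :
    0 ≤ 1 - 110 / 31 * tot [x, y, z, w] u + 96 / 31 * mm [x, y, z, w] u ^ 2 := by
  obtain ⟨e, o, he, ho, h1, h2, h3, h4, h5, h6⟩ := lev4 h
  unfold ea at he
  unfold ob at ho
  have ht : tot [x, y, z, w] u = ((e : ℝ) + o) / 16 := by linarith
  have hm : mm [x, y, z, w] u = ((e : ℝ) - o) / 16 := by linarith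
  rw [ht, hm]
  have key : (55 : ℝ) * (e + o) ≤ 248 + 3 * (e - o) ^ 2 := by
    interval_cases e <;> interval_cases o <;> first | omega | norm_num
  nlinarith

variable {d : ℕ} {V : Ultrafilter ℕ} {hV : (V : Filter ℕ) ≤ atTop}
  {S : (N : ℕ) → Finset (Finset (Fin d → Fin N))}

/-- averaging an inequality between `tot` and `mm` -/
lemma avg_point (hd : 1 ≤ d) (hS : Adm S) (l : List ℕ) (hl : ∀ y ∈ l, 1 ≤ y) (a w : ℝ)
    (hp : ∀ u : Q l → ℝ, Ids l u → 0 ≤ 1 - a * tot l u + w * mm l u ^ 2) :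
    0 ≤ 1 - a * (raw V hV S).v + w * En (raw V hV S) l := by
  classical
  set R := raw V hV S with hR
  have key := avgK (V := V) (hV := hV) (S := S) (Bl l) (pat l)
    (fun q q' => w * (sg l q * sg l q') - (if q = q' then a * tw l else 0)) ?_
  · have e1 : ∑ q, ∑ q', (w * (sg l q * sg l q') - (if q = q' then a * tw l else 0))
          * R.K (Bl l) (pat l q) (pat l q')
        = w * En R l - ∑ q : Q l, a * tw l * R.v := by
      unfold En
      rw [mul_sum, ← sum_sub_distrib]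
      refine sum_congr rfl fun q _ => ?_
      have e2 : R.K (Bl l) (pat l q) (pat l q) = R.v := R.K_same _ hd _ _ fun _ => Iff.rfl
      rw [← e2, mul_sum]
      simp only [sub_mul, sum_sub_distrib, ite_mul, zero_mul, sum_ite_eq, mem_univ, if_true]
      congr 1
      refine sum_congr rfl fun q' _ => ?_
      ring
    have e3 : ∀ l : List ℕ, ∑ _q : Q l, tw l = 1 := by
      intro l
      induction l with
      | nil =>
        have h3 : Fintype.card (Q []) = 1 := Fintype.card_unit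
        rw [sum_const, card_univ, h3]
        simp [tw]
      | cons x l ih =>
        rw [sum_cons, ← ih, ← sum_add_distrib]
        refine sum_congr rfl fun q _ => ?_
        simp only [tw]
        ring
    have e4 : ∑ q : Q l, a * tw l * R.v = a * R.v := by
      have h5 : ∑ q : Q l, a * tw l * R.v = ∑ q : Q l, a * R.v * tw l :=
        sum_congr rfl fun q _ => by ring
      rw [h5, ← mul_sum, e3, mul_one]
    rw [e1, e4] at key
    linarith
  · intro N φ A
    have h := hp (fun q => ind (S N) (ow φ (pat l q) A)) ⟨fun q => ind01 _ _, ?_⟩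
    · refine h.trans (le_of_eq ?_)
      have e1 : ∑ q, ∑ q', (w * (sg l q * sg l q') - (if q = q' then a * tw l else 0))
            * (ind (S N) (ow φ (pat l q) A) * ind (S N) (ow φ (pat l q') A))
          = w * mm l (fun q => ind (S N) (ow φ (pat l q) A)) ^ 2
            - a * tot l (fun q => ind (S N) (ow φ (pat l q) A)) := by
        unfold mm tot
        rw [sq, sum_mul_sum, mul_sum, mul_sum, ← sum_sub_distrib]
        refine sum_congr rfl fun q _ => ?_
        rw [mul_sum]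
        simp only [sub_mul, sum_sub_distrib, ite_mul, zero_mul, sum_ite_eq, mem_univ, if_true]
        rw [ind_mul_self]
        congr 1
        · refine sum_congr rfl fun q' _ => ?_
          ring
        · ring
      rw [e1]
      ring
    · intro p q hpq
      obtain ⟨γ, hγ, h1, h2⟩ := adj_cube hd l hl p q hpq
      exact ind_excl (excl hS γ hγ h1 h2 N φ A)

/-- The bound obtained from four cubes. -/
theorem density_le_four (hd : 1 ≤ d) (hS : Adm S) :
    (raw V hV S).v * (110 - 48 * (1 - (1 / 2) ^ d) ^ 3) ≤ 31 := by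
  set R := raw V hV S with hR
  have main : ∀ ε : ℝ, 0 < ε → 0 ≤ 1 - 110 / 31 * R.v
      + 96 / 31 * ((1 - (1 / 2) ^ d) ^ 3 * (R.v / 2)) + ε := by
    intro ε hε
    obtain ⟨x, l, hl, hy, hE⟩ := exists_list (V := V) (hV := hV) hd hS 3 (ε / 4) (by linarith)
    obtain ⟨y, z, w, rfl⟩ := List.length_eq_three.1 hl
    have h := avg_point (V := V) (hV := hV) hd hS [x, y, z, w] hy (110 / 31) (96 / 31)
      fun u hu => four_point hu
    rw [← hR] at h hE
    linarith
  have h1 : 0 ≤ 1 - 110 / 31 * R.v + 96 / 31 * ((1 - (1 / 2) ^ d) ^ 3 * (R.v / 2)) :=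
    le_of_forall_pos_le_add main
  linarith

end Pool.Agent.J4.H81.SR
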